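import Pool.Agent.H55.LF.Bound
import Pool.Agent.H55.LF.Right

/-!
# Linear forms with full image and small image: all pairs with property (S)

A pair of linear forms over a ring is given by its coefficients `f : Fin h → R` (the form `F`) and
`g : Fin l → R` (the form `G`).
-/

set_option autoImplicit false

open Finset

universe u

namespace Pool.Agent.Results.MP_0c4eaf_nt.Classification

/-- The set of all values `∑ i, f i • a i` with all `a i` in `A`. -/
def formImage {R : Type u} [Ring R] {W : Type u} [AddCommGroup W] [Module R W] {h : ℕ}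
    (f : Fin h → R) (A : Set W) : Set W :=
  {w | ∃ a : Fin h → W, (∀ i, a i ∈ A) ∧ w = ∑ i, f i • a i}

/-- Property (S): for all `ε > 0` and `c > 0` there are a finite left module `W` with more than `c`
elements and a subset `A` of `W` such that `F(A) = W` and `|G(A)| < ε |W|`. -/
def PropertyS (R : Type u) [Ring R] {h l : ℕ} (f : Fin h → R) (g : Fin l → R) : Prop :=
  ∀ ε : ℝ, 0 < ε → ∀ c : ℝ, 0 < c →
    ∃ (W : Type u) (_ : AddCommGroup W) (_ : Module R W) (_ : Finite W) (A : Set W),
      c < (Nat.card W : ℝ) ∧ formImage f A = Set.univ ∧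
        (Nat.card (formImage g A) : ℝ) < ε * (Nat.card W : ℝ)

/-- A pattern `P` gives every variable `j` of `G` a variable of `F` (its slot) and a class. The
class vector of the class `t` has as its `i`-th entry the sum of all coefficients `g j` whose
variable has the slot `i` and the class `t`. -/
def classVector {R : Type u} [Ring R] {h l : ℕ} (g : Fin l → R) (P : Fin l → Fin h × Fin l)
    (t : Fin l) (i : Fin h) : R :=
  ∑ j ∈ Finset.univ.filter (fun j => P j = (i, t)), g j

/-- **All pairs of linear forms with property (S).**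
(1) Over an arbitrary ring, (S) holds if and only if for every pattern there are a finite module `U`
on which `F` is surjective and a proper subgroup `K` of `U` such that every class form which maps
all zeros of `F` into `K` has all its values in `K`.
(2) Over an arbitrary ring, (S) holds if and only if for every pattern there is a proper right
submodule `N` of finite index of `R ^ l` such that `v ∈ N` whenever all `v * f i` are in `N`, and such
that the following holds for the class vector `γ` of every class: if for every unit vector `e` there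
is a `v` with all `e * γ i - v * f i` in `N`, then all `e * γ i` are in `N`. (So for a finite ring
there are only finitely many things to check.)
(3) Over a commutative ring, (S) holds if and only if for every pattern there is a proper ideal `I`
of finite index which together with the coefficients of `F` generates `R`, such that every class
vector which is a multiple of `f` modulo `I` is zero modulo `I`.
(4) Over the integers, (S) holds if and only if for every pattern there is a modulus `c` with
`2 ≤ c ≤ 2 (∑ |f i|) (1 + ∑ |g j|)`, without a prime factor that divides all `f i`, such that every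
class vector which is a multiple of `f` modulo `c` is zero modulo `c`. -/
theorem result :
    (∀ (R : Type u) [Ring R] (h l : ℕ) (f : Fin h → R) (g : Fin l → R), 0 < h → 0 < l →
      (PropertyS R f g ↔ ∀ P : Fin l → Fin h × Fin l,
        ∃ (U : Type u) (_ : AddCommGroup U) (_ : Module R U) (_ : Finite U) (K : AddSubgroup U),
          K ≠ ⊤ ∧ (∀ u : U, ∃ x : Fin h → U, ∑ i, f i • x i = u) ∧
          ∀ t : Fin l,
            (∀ x : Fin h → U, ∑ i, f i • x i = 0 → ∑ i, classVector g P t i • x i ∈ K) →
              ∀ x : Fin h → U, ∑ i, classVector g P t i • x i ∈ K)) ∧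
    (∀ (R : Type u) [Ring R] (h l : ℕ) (f : Fin h → R) (g : Fin l → R), 0 < h → 0 < l →
      (PropertyS R f g ↔ ∀ P : Fin l → Fin h × Fin l,
        ∃ N : AddSubgroup (Fin l → R), (∀ v ∈ N, ∀ r : R, (fun s => v s * r) ∈ N) ∧ N ≠ ⊤ ∧
          Finite ((Fin l → R) ⧸ N) ∧
          (∀ v : Fin l → R, (∀ i, (fun s => v s * f i) ∈ N) → v ∈ N) ∧
          ∀ t : Fin l, (∀ s, ∃ v : Fin l → R, ∀ i,
              (Pi.single s (classVector g P t i) - fun r => v r * f i : Fin l → R) ∈ N) →
            ∀ s i, (Pi.single s (classVector g P t i) : Fin l → R) ∈ N)) ∧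
    (∀ (R : Type u) [CommRing R] (h l : ℕ) (f : Fin h → R) (g : Fin l → R), 0 < h → 0 < l →
      (PropertyS R f g ↔ ∀ P : Fin l → Fin h × Fin l,
        ∃ I : Ideal R, I ≠ ⊤ ∧ Finite (R ⧸ I) ∧ I ⊔ Ideal.span (Set.range f) = ⊤ ∧
          ∀ t : Fin l, (∃ x : R, ∀ i, classVector g P t i - x * f i ∈ I) →
            ∀ i, classVector g P t i ∈ I)) ∧
    (∀ (h l : ℕ) (f : Fin h → ℤ) (g : Fin l → ℤ), 0 < h → 0 < l →
      (PropertyS ℤ f g ↔ ∀ P : Fin l → Fin h × Fin l,
        ∃ c : ℕ, 2 ≤ c ∧ c ≤ 2 * (∑ i, (f i).natAbs) * (1 + ∑ j, (g j).natAbs) ∧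
          (∀ p : ℕ, p.Prime → p ∣ c → ∃ i, ¬ (p : ℤ) ∣ f i) ∧
          ∀ t : Fin l, (∃ x : ℤ, ∀ i, (c : ℤ) ∣ classVector g P t i - x * f i) →
            ∀ i, (c : ℤ) ∣ classVector g P t i)) := by
  refine ⟨?_, ?_, ?_, ?_⟩
  · intro R _ h l f g hh hl
    have h1 := Pool.Agent.TH282.LF.propertyS_iff R f g hh hl
    refine Iff.trans (b := H183R3.LF.PropertyS R f g) Iff.rfl (h1.trans ?_)
    exact forall_congr' fun P => Pool.Agent.H55.LF.avoidable_iff_closed f g hl P
  · intro R _ h l f g hh hl
    have h1 := Pool.Agent.TH282.LF.propertyS_iff R f g hh hl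
    refine Iff.trans (b := H183R3.LF.PropertyS R f g) Iff.rfl (h1.trans ?_)
    exact forall_congr' fun P => (Pool.Agent.H55.LF.avoidable_iff_closed f g hl P).trans
      (Pool.Agent.H55.LF.closed_iff_closedRight f g hl P)
  · intro R _ h l f g hh hl
    have h1 := Pool.Agent.TH282.LF.propertyS_iff R f g hh hl
    refine Iff.trans (b := H183R3.LF.PropertyS R f g) Iff.rfl (h1.trans ?_)
    exact forall_congr' fun P => Pool.Agent.H55.LF.avoidable_iff_ideal f g hl P
  · intro h l f g hh hl
    have h1 := Pool.Agent.TH282.LF.propertyS_iff ℤ f g hh hl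
    refine Iff.trans (b := H183R3.LF.PropertyS ℤ f g) Iff.rfl (h1.trans ?_)
    refine forall_congr' fun P => (Pool.Agent.H55.LF.avoidable_iff_int f g hl P).trans ?_
    constructor
    · intro H
      exact Pool.Agent.H55.LF.closedInt_bound f g P H
    · rintro ⟨c, h2, -, h3⟩
      exact ⟨c, h2, h3⟩

end Pool.Agent.Results.MP_0c4eaf_nt.Classification
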